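import Mathlib

namespace Pool.Agent.Results.MP_1a6900_co.Order

open scoped RealInnerProductSpace

/-- vertices of the unit cube -/
def cube (n : ℕ) : Set (EuclideanSpace ℝ (Fin n)) := {x | ∀ i, x i = 0 ∨ x i = 1}

/-- width of a convex set -/
noncomputable def width {n : ℕ} (C : Set (EuclideanSpace ℝ (Fin n))) : ℝ :=
  ⨅ u : Metric.sphere (0 : EuclideanSpace ℝ (Fin n)) 1,
    (sSup ((fun x => ⟪u.1, x⟫) '' C) - sInf ((fun x => ⟪u.1, x⟫) '' C))

/-- packing number -/
noncomputable def N (n : ℕ) (t : ℝ) : ℕ :=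
  sSup {k | ∃ P : Finset (Set (EuclideanSpace ℝ (Fin n))), P.card = k ∧
    (P : Set (Set (EuclideanSpace ℝ (Fin n)))).PairwiseDisjoint id ∧
    ∀ A ∈ P, A.Nonempty ∧ A ⊆ cube n ∧ t ≤ width (convexHull ℝ A)}

noncomputable def sg (a : ZMod 2) : ℝ := if a = 0 then 1 else -1

lemma sg_add (a b : ZMod 2) : sg (a + b) = sg a * sg b := by
  have h : ∀ c : ZMod 2, c = 0 ∨ c = 1 := by decide
  have h2 : (1 : ZMod 2) + 1 = 0 := by decide
  rcases h a with rfl | rfl <;> rcases h b with rfl | rfl <;> simp [sg, h2]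

noncomputable def emb {n : ℕ} (y : Fin n → ZMod 2) : EuclideanSpace ℝ (Fin n) :=
  WithLp.toLp 2 fun i => (1 - sg (y i)) / 2

lemma emb_inj {n : ℕ} : Function.Injective (emb (n := n)) := by
  intro y z h
  funext i
  have h1 : (1 - sg (y i)) / 2 = (1 - sg (z i)) / 2 := congrArg (fun x => x.ofLp i) h
  have h2 : ∀ c : ZMod 2, c = 0 ∨ c = 1 := by decide
  rcases h2 (y i) with a | a <;> rcases h2 (z i) with b | b <;> simp [a, b, sg] at h1 ⊢

lemma cube_eq (n : ℕ) : cube n = Set.range emb := by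
  ext x
  constructor
  · intro hx
    refine ⟨fun i => if x i = 0 then 0 else 1, ?_⟩
    ext i
    rcases hx i with h | h <;> simp [emb, sg, h]
  · rintro ⟨y, rfl⟩ i
    by_cases h : y i = 0 <;> simp [emb, sg, h]

lemma cube_fin (n : ℕ) : (cube n).Finite := by rw [cube_eq]; exact Set.finite_range _

lemma cube_card (n : ℕ) : (cube n).ncard = 2 ^ n := by
  rw [cube_eq, Set.ncard_range_of_injective emb_inj]
  simp

lemma bdd {n : ℕ} {A : Set (EuclideanSpace ℝ (Fin n))} (hA : A.Finite)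
    (u : EuclideanSpace ℝ (Fin n)) :
    BddAbove ((fun x => ⟪u, x⟫) '' convexHull ℝ A) ∧
      BddBelow ((fun x => ⟪u, x⟫) '' convexHull ℝ A) := by
  have : IsCompact ((fun x => ⟪u, x⟫) '' convexHull ℝ A) :=
    (hA.isCompact_convexHull ℝ).image (by fun_prop)
  exact ⟨this.bddAbove, this.bddBelow⟩

lemma big {n : ℕ} {A : Set (EuclideanSpace ℝ (Fin n))} (hA : A.Finite) (h0 : A.Nonempty)
    (hw : 0 < width (convexHull ℝ A)) : n + 1 ≤ A.ncard := by
  by_contra hc
  obtain ⟨a, ha⟩ := h0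
  have h1 : Module.finrank ℝ (vectorSpan ℝ A) < n := by
    have h2 : hA.toFinset.card = (A.ncard - 1) + 1 := by
      rw [← Set.ncard_eq_toFinset_card A hA]
      have := (Set.ncard_pos hA).2 ⟨a, ha⟩
      omega
    have := finrank_vectorSpan_image_finset_le ℝ (fun x => x) hA.toFinset h2
    have h3 := (Set.ncard_pos hA).2 ⟨a, ha⟩
    rw [Finset.image_id', Set.Finite.coe_toFinset] at this
    omega
  have h2 : (vectorSpan ℝ A)ᗮ ≠ ⊥ := by
    intro h
    have := Submodule.finrank_add_finrank_orthogonal (vectorSpan ℝ A)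
    rw [h] at this
    simp at this
    omega
  obtain ⟨v, hv, hv0⟩ := Submodule.exists_mem_ne_zero_of_ne_bot h2
  let u : Metric.sphere (0 : EuclideanSpace ℝ (Fin n)) 1 :=
    ⟨(‖v‖⁻¹ : ℝ) • v, by simp [norm_smul, hv0]⟩
  have h3 : (fun x => ⟪u.1, x⟫) '' convexHull ℝ A = {⟪u.1, a⟫} := by
    apply Set.Subset.antisymm
    · rintro _ ⟨x, hx, rfl⟩
      have h4 : x - a ∈ vectorSpan ℝ A := by
        rw [← direction_affineSpan]
        exact AffineSubspace.vsub_mem_direction (convexHull_subset_affineSpan A hx)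
          (subset_affineSpan ℝ A ha)
      have h5 : ⟪v, x - a⟫ = 0 := Submodule.inner_left_of_mem_orthogonal h4 hv
      rw [inner_sub_right, sub_eq_zero] at h5
      simp [u, inner_smul_left, h5]
    · rintro _ rfl
      exact ⟨a, subset_convexHull ℝ A ha, rfl⟩
  have h4 : width (convexHull ℝ A) ≤ 0 := by
    refine (ciInf_le ⟨0, ?_⟩ u).trans (by rw [h3]; simp)
    rintro _ ⟨w, rfl⟩
    have hm : ⟪w.1, a⟫ ∈ (fun x => ⟪w.1, x⟫) '' convexHull ℝ A :=
      ⟨a, subset_convexHull ℝ A ha, rfl⟩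
    exact sub_nonneg.2 ((csInf_le (bdd hA _).2 hm).trans (le_csSup (bdd hA _).1 hm))
  linarith

lemma sum_sg {r : ℕ} (w : Fin r → ZMod 2) :
    ∑ x : Fin r → ZMod 2, sg (w ⬝ᵥ x) = if w = 0 then 2 ^ r else 0 := by
  split_ifs with h
  · simp [h, sg]
  · obtain ⟨j, hj⟩ := Function.ne_iff.1 h
    have h2 : ∀ c : ZMod 2, c ≠ 0 → c = 1 := by decide
    have := Equiv.sum_comp (Equiv.addRight (Pi.single j (1 : ZMod 2) : Fin r → ZMod 2))
      (fun x => sg (w ⬝ᵥ x))
    simp only [Equiv.coe_addRight, dotProduct_add, sg_add, dotProduct_single, h2 _ hj,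
      mul_one] at this
    rw [show sg 1 = -1 by simp [sg], ← Finset.sum_mul] at this
    linarith

lemma range_ge {n r : ℕ} (v : Fin n → Fin r → ZMod 2) (hv : Function.Injective v)
    (hv0 : ∀ i, v i ≠ 0) (u : Fin n → ℝ) (hu : ∑ i, u i ^ 2 = 1) :
    ∃ x y : Fin r → ZMod 2, 2 ≤ ∑ i, u i * sg (v i ⬝ᵥ x) - ∑ i, u i * sg (v i ⬝ᵥ y) := by
  set g : (Fin r → ZMod 2) → ℝ := fun x => ∑ i, u i * sg (v i ⬝ᵥ x) with hg
  obtain ⟨x, hx⟩ := Finite.exists_max g
  obtain ⟨y, hy⟩ := Finite.exists_min g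
  refine ⟨x, y, ?_⟩
  change 2 ≤ g x - g y
  have h1 : ∑ z, g z = 0 := by
    simp only [hg]
    rw [Finset.sum_comm]
    simp [← Finset.mul_sum, sum_sg, hv0]
  have h2 : ∑ z, g z ^ 2 = 2 ^ r := by
    have : ∀ z, g z ^ 2 = ∑ i, ∑ j, u i * u j * sg ((v i + v j) ⬝ᵥ z) := fun z => by
      simp only [hg, sq, Finset.sum_mul_sum, add_dotProduct, sg_add]
      refine Finset.sum_congr rfl fun i _ => Finset.sum_congr rfl fun j _ => by ring
    simp only [this]
    rw [Finset.sum_comm]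
    have h3 : ∀ i j, v i + v j = 0 ↔ i = j := fun i j => by
      rw [← hv.eq_iff, add_eq_zero_iff_eq_neg, ZModModule.neg_eq_self]
    have : ∀ i, ∑ z : Fin r → ZMod 2, ∑ j, u i * u j * sg ((v i + v j) ⬝ᵥ z) = u i ^ 2 * 2 ^ r :=
      fun i => by
        rw [Finset.sum_comm]
        simp only [← Finset.mul_sum, sum_sg, h3]
        simp [sq]
    simp only [this, ← Finset.sum_mul, hu, one_mul]
  have h3 : 0 ≤ ∑ z, (g x - g z) * (g z - g y) :=
    Finset.sum_nonneg fun z _ => mul_nonneg (sub_nonneg.2 (hx z)) (sub_nonneg.2 (hy z))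
  have h4 : ∑ z, (g x - g z) * (g z - g y) =
      (g x + g y) * ∑ z, g z - ∑ z, g z ^ 2 - 2 ^ r * (g x * g y) := by
    rw [Finset.mul_sum, ← Finset.sum_sub_distrib,
      show (2 : ℝ) ^ r * (g x * g y) = ∑ _z : Fin r → ZMod 2, g x * g y by simp,
      ← Finset.sum_sub_distrib]
    exact Finset.sum_congr rfl fun z _ => by ring
  rw [h4, h1, h2] at h3
  have h5 : (0 : ℝ) < 2 ^ r := by positivity
  have h6 : g x * g y ≤ -1 := by nlinarith
  have h7 := hx y
  nlinarith [sq_nonneg (g x + g y)]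

theorem result (n : ℕ) (hn : 1 ≤ n) (t : ℝ) (ht : 0 < t) (ht1 : t ≤ 1) :
    2 ^ n ≤ 2 * n * N n t ∧ (n + 1) * N n t ≤ 2 ^ n := by
  classical
  have up : ∀ k ∈ {k | ∃ P : Finset (Set (EuclideanSpace ℝ (Fin n))), P.card = k ∧
      (P : Set (Set (EuclideanSpace ℝ (Fin n)))).PairwiseDisjoint id ∧
      ∀ A ∈ P, A.Nonempty ∧ A ⊆ cube n ∧ t ≤ width (convexHull ℝ A)}, (n + 1) * k ≤ 2 ^ n := by
    rintro _ ⟨P, rfl, hP, h⟩
    have hf : ∀ A ∈ P, A.Finite := fun A hA => (cube_fin n).subset (h A hA).2.1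
    let F : Set (EuclideanSpace ℝ (Fin n)) → Finset (EuclideanSpace ℝ (Fin n)) := fun A =>
      (cube_fin n).toFinset.filter (· ∈ A)
    have hF : ∀ A ∈ P, (F A : Set _) = A := fun A hA => by
      ext x
      simpa [F] using fun hx => (h A hA).2.1 hx
    have h1 : (P.biUnion F).card = ∑ A ∈ P, (F A).card := by
      refine Finset.card_biUnion fun A hA B hB hne => ?_
      change Disjoint (F A) (F B)
      rw [← Finset.disjoint_coe, hF A hA, hF B hB]
      exact hP hA hB hne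
    have h2 : (P.biUnion F).card ≤ 2 ^ n := by
      rw [← cube_card, Set.ncard_eq_toFinset_card _ (cube_fin n)]
      exact Finset.card_le_card (Finset.biUnion_subset.2 fun A _ => Finset.filter_subset _ _)
    have h3 : P.card • (n + 1) ≤ ∑ A ∈ P, (F A).card := by
      refine Finset.card_nsmul_le_sum _ _ _ fun A hA => ?_
      rw [← Set.ncard_coe_finset, hF A hA]
      exact big (hf A hA) (h A hA).1 (ht.trans_le (h A hA).2.2)
    rw [smul_eq_mul] at h3
    nlinarith
  have hb : BddAbove {k | ∃ P : Finset (Set (EuclideanSpace ℝ (Fin n))), P.card = k ∧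
      (P : Set (Set (EuclideanSpace ℝ (Fin n)))).PairwiseDisjoint id ∧
      ∀ A ∈ P, A.Nonempty ∧ A ⊆ cube n ∧ t ≤ width (convexHull ℝ A)} :=
    ⟨2 ^ n, fun k hk => by have := up k hk; nlinarith⟩
  refine ⟨?_, up _ (Nat.sSup_mem ⟨0, ∅, by simp⟩ hb)⟩
  set r := Nat.log 2 n + 1 with hr
  have hr1 : n < 2 ^ r := Nat.lt_pow_succ_log_self (by norm_num) n
  have hr2 : 2 ^ r ≤ 2 * n := by
    have := Nat.pow_log_le_self 2 (show n ≠ 0 by omega)
    rw [hr, pow_succ]; omega
  obtain ⟨v⟩ : Nonempty (Fin n ↪ {w : Fin r → ZMod 2 // w ≠ 0}) :=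
    Function.Embedding.nonempty_of_card_le (by simp; omega)
  let φ : (Fin r → ZMod 2) → Fin n → ZMod 2 := fun x i => (v i).1 ⬝ᵥ x
  have φa : ∀ x y, φ (x + y) = φ x + φ y := fun x y => by funext i; simp [φ]
  have φ0 : φ 0 = 0 := by funext i; simp [φ]
  let A : (Fin n → ZMod 2) → Set (EuclideanSpace ℝ (Fin n)) := fun c =>
    Set.range fun x => emb (c + φ x)
  have hA : ∀ c x, A (c + φ x) = A c := fun c x => by
    simp only [A, add_assoc, ← φa]
    exact (Equiv.addLeft x).surjective.range_comp fun y => emb (c + φ y)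
  have h1 : (Finset.univ.image A).card ≤ N n t := by
    refine le_csSup hb ⟨_, rfl, ?_, ?_⟩
    · intro B hB C hC hne
      simp only [Finset.coe_image, Finset.coe_univ, Set.image_univ] at hB hC
      obtain ⟨b, rfl⟩ := hB
      obtain ⟨c, rfl⟩ := hC
      refine Set.disjoint_left.2 ?_
      rintro _ ⟨x, rfl⟩ ⟨y, hy⟩
      exact hne (by rw [← hA b x, ← hA c y, emb_inj hy])
    · intro B hB
      obtain ⟨c, -, rfl⟩ := Finset.mem_image.1 hB
      refine ⟨Set.range_nonempty _, by rw [cube_eq]; rintro _ ⟨x, rfl⟩; exact ⟨_, rfl⟩, ht1.trans ?_⟩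
      have : Nonempty (Metric.sphere (0 : EuclideanSpace ℝ (Fin n)) 1) :=
        ⟨⟨EuclideanSpace.single ⟨0, hn⟩ 1, by simp⟩⟩
      refine le_ciInf fun u => ?_
      have hu : ∑ i, (u.1 i * sg (c i)) ^ 2 = 1 := by
        have h1 : ‖u.1‖ = 1 := by simp
        have h2 := EuclideanSpace.real_norm_sq_eq u.1
        rw [h1, one_pow] at h2
        refine Eq.trans (Finset.sum_congr rfl fun i _ => ?_) h2.symm
        unfold sg; split_ifs <;> ring
      obtain ⟨x, y, hxy⟩ := range_ge (fun i => (v i).1)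
        (Subtype.val_injective.comp v.injective) (fun i => (v i).2) _ hu
      have hin : ∀ z, ⟪u.1, emb (c + φ z)⟫ =
          (∑ i, u.1 i - ∑ i, u.1 i * sg (c i) * sg ((v i).1 ⬝ᵥ z)) / 2 := fun z => by
        rw [← Finset.sum_sub_distrib, Finset.sum_div, PiLp.inner_apply]
        refine Finset.sum_congr rfl fun i _ => ?_
        simp [emb, sg_add, φ]; ring
      have hm : ∀ z, ⟪u.1, emb (c + φ z)⟫ ∈ (fun x => ⟪u.1, x⟫) '' convexHull ℝ (A c) :=
        fun z => ⟨_, subset_convexHull ℝ _ ⟨z, rfl⟩, rfl⟩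
      have b := bdd (A := A c) (Set.finite_range _) u.1
      have a1 := le_csSup b.1 (hm y)
      have a2 := csInf_le b.2 (hm x)
      rw [hin] at a1 a2
      linarith
  have h2 : (Finset.univ : Finset (Fin n → ZMod 2)).card ≤ 2 ^ r * (Finset.univ.image A).card := by
    refine Finset.card_le_mul_card_image _ _ fun B hB => ?_
    obtain ⟨c, -, rfl⟩ := Finset.mem_image.1 hB
    refine (Finset.card_le_card (t := Finset.univ.image fun x => c + φ x) ?_).trans
      (Finset.card_image_le.trans (by simp))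
    intro d hd
    have h3 : emb d ∈ A c := by
      rw [← (Finset.mem_filter.1 hd).2]
      exact ⟨0, by simp [φ0]⟩
    obtain ⟨x, hx⟩ := h3
    exact Finset.mem_image.2 ⟨x, Finset.mem_univ _, emb_inj hx⟩
  simp only [Finset.card_univ, Fintype.card_pi, ZMod.card, Finset.prod_const,
    Fintype.card_fin] at h2
  exact h2.trans (Nat.mul_le_mul hr2 h1)

end Pool.Agent.Results.MP_1a6900_co.Order
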